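import Mathlib
import Pool.Agent.Y855.A18

set_option autoImplicit false

/-! # Primitive roots `± n` in the cosets of finitely generated groups, without a condition on `n`

Let `T x z` be the set of the primes `p ≤ x` such that `p - 1` has no odd prime factor `≤ z`, and
`T3 x z` the set of those which are `3` modulo `4`.

Let `a_1, …, a_r` be multiplicatively independent integers and `b ≠ 0` an integer, all of absolute value
at most `(log x) ^ B`, where `r` is fixed.  The elements `n = b a_1^(v_1) ⋯ a_r^(v_r)` of the coset of `b`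
with `v ∈ V` are considered, where the set `V` of exponent vectors is thin: it has at most `h` elements
on every affine hyperplane modulo every prime `l > z`.

The starting hand-in `CosetsOfGroups` treats the `n` in the coset with squarefree part `1` modulo `4`.
Here nothing is assumed on the squarefree part of `n`: for all but few `n` the order of `n` is `p - 1` or
`(p - 1) / 2`, that is, `n` or `- n` is a primitive root, for nearly all `p` in `T3 x z`.  Moreover `2 n²`
(with squarefree part two, also when `n` is in the coset) is a primitive root for nearly exactly one half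
of the primes in `T x z`.

The proofs are those of the starting file `Pool.Agent.Y855.A18`. -/

namespace Pool.Agent.Results.MP_991e92_nt.CosetsThreeModFour

open Finset Classical

/-- the primes `p ≤ x` such that every odd prime factor of `p - 1` exceeds `z` -/
noncomputable def T (x z : ℕ) : Finset ℕ :=
  (Finset.range (x + 1)).filter (fun p : ℕ => p.Prime ∧ ∀ q : ℕ, q.Prime → q ∣ p - 1 → q = 2 ∨ z < q)

/-- the primes `p ≡ 3 mod 4` in `T x z` -/
noncomputable def T3 (x z : ℕ) : Finset ℕ := (T x z).filter (fun p : ℕ => p % 4 = 3)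

/-- `n` is a primitive root modulo `p` -/
def IsPrimRoot (n : ℤ) (p : ℕ) : Prop := orderOf (n : ZMod p) = p - 1

/-- multiplicative independence -/
def Independent {r : ℕ} (a : Fin r → ℤ) : Prop :=
  ∀ c : Fin r → ℤ, ∏ i, (a i : ℚ) ^ (c i) = 1 → ∀ i, c i = 0

/-- the element `b ∏ a_i ^ v_i` of the coset of `b` -/
def elt {r : ℕ} (a : Fin r → ℤ) (b : ℤ) (v : Fin r → ℕ) : ℤ := b * ∏ i, a i ^ v i

/-- every affine hyperplane modulo every prime `l > z` contains at most `h` elements of `V` -/
def Thin {r : ℕ} (V : Finset (Fin r → ℕ)) (z h : ℕ) : Prop :=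
  ∀ l : ℕ, l.Prime → z < l → ∀ u : Fin r → ZMod l, u ≠ 0 → ∀ c : ZMod l,
    (V.filter (fun v => ∑ i, u i * (v i : ZMod l) = c)).card ≤ h

theorem T_eq (x z : ℕ) : T x z = Pool.Agent.Y855.TT x z := by
  unfold T Pool.Agent.Y855.TT
  ext p
  rw [mem_filter, mem_filter, mem_range, mem_Icc]
  constructor
  · rintro ⟨h1, h2, h3⟩
    refine ⟨⟨h2.pos, by omega⟩, h2, fun q hq hqp => ?_⟩
    rw [Pool.Agent.Y855.mem_OP] at hq
    rcases h3 q hq.1 hqp with h | h <;> omega
  · rintro ⟨h1, h2, h3⟩
    refine ⟨by omega, h2, fun q hq hqp => ?_⟩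
    by_contra hcon
    push Not at hcon
    refine h3 q (Pool.Agent.Y855.mem_OP.2 ⟨hq, ?_, hcon.2⟩) hqp
    have := hq.two_le
    omega

theorem T3_eq (x z : ℕ) : T3 x z = Pool.Agent.Y855.T3 x z := by
  unfold T3 Pool.Agent.Y855.T3
  rw [T_eq]

/-- if the order of `n` is half of `p - 1` and `p ≡ 3 mod 4` then `- n` is a primitive root -/
theorem neg_primRoot {n : ℤ} {p : ℕ} (hp : p.Prime) (hp4 : p % 4 = 3)
    (h : 2 * orderOf (n : ZMod p) = p - 1) : IsPrimRoot (-n) p := by
  have hF : Fact p.Prime := ⟨hp⟩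
  set m := orderOf (n : ZMod p) with hm
  have hodd : Odd m := by
    rw [Nat.odd_iff]; omega
  have hneg : orderOf (-1 : ZMod p) = 2 := by
    rw [orderOf_neg_one, ringChar.eq (ZMod p) p]
    rw [if_neg (by omega)]
  have hcop : Nat.Coprime (orderOf (-1 : ZMod p)) (orderOf (n : ZMod p)) := by
    rw [hneg, ← hm]
    exact (Nat.coprime_two_left).2 hodd
  have h2 : orderOf ((-1 : ZMod p) * (n : ZMod p)) = 2 * m := by
    rw [(Commute.all _ _).orderOf_mul_eq_mul_orderOf_of_coprime hcop, hneg, ← hm]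
  unfold IsPrimRoot
  push_cast
  rw [neg_one_mul] at h2
  rw [h2, h]

/-- **Main theorem.** For every `ε > 0` there is `K ≥ 1` such that for all `r ≥ 2`, `B` and all large
`x` and all `z` with `x ^ (2 / r) ≤ z ≤ x ^ (1 / K)` the set `T3 x z` has at least
`x / (K log x log z)` elements, and the following holds for all multiplicatively independent
`a_1, …, a_r` and `b ≠ 0` bounded by `(log x) ^ B` and every set `V` of at most `x ^ (1 / (2 r))`
exponent vectors which is thin with the bound `h`:

(1) for all `v` in `V` with at most `K h log x / log z` exceptions, `n` or `- n` is a primitive root for at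
least `(1 - ε) # T3 x z` primes in `T3 x z`, where `n = b a_1^(v_1) ⋯ a_r^(v_r)`;

(2) for all `v` in `V` with at most `K h log x / log z` exceptions, the number of the primes in `T x z`
with the primitive root `2 n²` is `# T x z / 2` up to an error `ε # T x z`. -/
theorem result (ε : ℝ) (hε : 0 < ε) : ∃ K : ℝ, 1 ≤ K ∧ ∀ r : ℕ, 2 ≤ r → ∀ B : ℕ, ∃ x₀ : ℕ,
    ∀ x : ℕ, x₀ ≤ x → ∀ z : ℕ, (z : ℝ) ^ K ≤ x → x ^ 2 ≤ z ^ r →
      (x : ℝ) / (K * (Real.log x * Real.log z)) ≤ (T3 x z).card ∧
      ∀ (a : Fin r → ℤ) (b : ℤ), Independent a → (∀ i, a i ≠ 0 ∧ |(a i : ℝ)| ≤ (Real.log x) ^ B) →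
        b ≠ 0 → |(b : ℝ)| ≤ (Real.log x) ^ B →
        ∀ (V : Finset (Fin r → ℕ)) (h : ℕ), Thin V z h → V.card ^ (2 * r) ≤ x →
        (∃ E ⊆ V, (E.card : ℝ) ≤ K * (h * (Real.log x / Real.log z)) ∧
          ∀ v ∈ V \ E, (1 - ε) * (T3 x z).card ≤
            (((T3 x z).filter (fun p => IsPrimRoot (elt a b v) p ∨
              IsPrimRoot (-elt a b v) p)).card : ℝ)) ∧
        ∃ E ⊆ V, (E.card : ℝ) ≤ K * (h * (Real.log x / Real.log z)) ∧
          ∀ v ∈ V \ E, |(((T x z).filter (fun p => IsPrimRoot (2 * elt a b v ^ 2) p)).card : ℝ) -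
            1 / 2 * (T x z).card| ≤ ε * (T x z).card := by
  obtain ⟨K₂, hK₂, H2⟩ := Pool.Agent.Y855.coset2 ε hε
  obtain ⟨K₃, hK₃, H3⟩ := Pool.Agent.Y855.coset3 ε hε
  refine ⟨max K₂ K₃, hK₂.trans (le_max_left _ _), fun r hr B => ?_⟩
  obtain ⟨x₂, H2⟩ := H2 r hr B
  obtain ⟨x₃, H3⟩ := H3 r hr B
  refine ⟨max (max x₂ x₃) 1, fun x hx z hzK hzr => ?_⟩
  have hx1 : 1 ≤ x := (le_max_right _ _).trans hx
  have hx2 : x₂ ≤ x := ((le_max_left _ _).trans (le_max_left _ _)).trans hx
  have hx3 : x₃ ≤ x := ((le_max_right _ _).trans (le_max_left _ _)).trans hx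
  have hz1 : 1 ≤ z := by
    by_contra hcon
    have hz0 : z = 0 := by omega
    rw [hz0, zero_pow (by omega)] at hzr
    have : 0 < x ^ 2 := by positivity
    omega
  have hz1r : (1 : ℝ) ≤ z := by exact_mod_cast hz1
  have hLx : 0 ≤ Real.log x := Real.log_natCast_nonneg x
  have hLz : 0 ≤ Real.log z := Real.log_natCast_nonneg z
  have hzK2 : (z : ℝ) ^ K₂ ≤ x :=
    (Real.rpow_le_rpow_of_exponent_le hz1r (le_max_left _ _)).trans hzK
  have hzK3 : (z : ℝ) ^ K₃ ≤ x :=
    (Real.rpow_le_rpow_of_exponent_le hz1r (le_max_right _ _)).trans hzK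
  obtain ⟨-, G2⟩ := H2 x hx2 z hzK2 hzr
  obtain ⟨G1, G3⟩ := H3 x hx3 z hzK3 hzr
  refine ⟨?_, fun a b hI ha hb hbB V h hV hVx => ⟨?_, ?_⟩⟩
  · rw [T3_eq]
    refine le_trans ?_ G1
    rcases (mul_nonneg hLx hLz).eq_or_lt with h0 | h0
    · rw [← h0]; simp
    · apply div_le_div_of_nonneg_left (Nat.cast_nonneg _) (by positivity)
      exact mul_le_mul_of_nonneg_right (le_max_right _ _) h0.le
  · obtain ⟨E, hE, hEc, hE2⟩ := G3 a b ha hI hb hbB V h hV hVx
    refine ⟨E, hE, hEc.trans ?_, fun v hv => ?_⟩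
    · apply mul_le_mul_of_nonneg_right (le_max_right _ _)
      positivity
    · have h1 := hE2 v hv
      rw [T3_eq]
      refine h1.trans ?_
      rw [Nat.cast_le]
      apply card_le_card
      intro p hp
      unfold Pool.Agent.Y855.Adm at hp
      rw [mem_filter] at hp ⊢
      refine ⟨hp.1, ?_⟩
      rcases hp.2 with h2 | h2
      · exact Or.inl h2
      · right
        have h3 := hp.1
        rw [← T3_eq] at h3
        unfold T3 T at h3
        rw [mem_filter, mem_filter] at h3
        exact neg_primRoot h3.1.2.1 h3.2 h2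
  · obtain ⟨E, hE, hEc, hE2⟩ := G2 a b ha hI hb hbB V h hV hVx
    refine ⟨E, hE, hEc.trans ?_, fun v hv => ?_⟩
    · apply mul_le_mul_of_nonneg_right (le_max_left _ _)
      positivity
    · have h1 := hE2 v hv
      have h2 : (T x z).filter (fun p => IsPrimRoot (2 * elt a b v ^ 2) p) =
          Pool.Agent.Y855.PR (2 * (Pool.Agent.Y855.nv a b v) ^ 2) x z := by
        unfold Pool.Agent.Y855.PR
        rw [T_eq]
        apply Finset.filter_congr
        intro p _
        exact Iff.rfl
      rw [h2, T_eq]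
      exact h1

end Pool.Agent.Results.MP_991e92_nt.CosetsThreeModFour
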