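import Pool.Agent.W769.Iso.Cube

set_option autoImplicit false

/-!
# MP_b1773a: the volume of a Kakeya set in terms of the Hölder constant of a selection

Let `n = d + 1 ≥ 3` and `1 - 1/d < α ≤ 1`. If the positions at height `0` of the lines with the
directions `(1, v)`, `v` in a cube `Q` of half side `r`, are `α`-Hölder with constant `H` on `Q`, then the
union of the parts of the lines over a unit interval of heights has volume at least
`c r^d (1 + H r^(α-1))^(-d(d-1)/(αd-d+1))`; hence segments of small total volume in these directions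
cannot be selected with a small Hölder constant. A similar bound holds for one of any `d + 1`
separated slices.
-/

open MeasureTheory Set Metric
open scoped ENNReal

namespace Pool.Agent.Results.MP_b1773a_an.HoelderVolume

/-- The point at height `t` of the line with direction `(1, v)` through `(0, p)`. -/
def pt {d : ℕ} (p v : Fin d → ℝ) (t : ℝ) : Fin (d + 1) → ℝ := Fin.cons t (p + t • v)

/-- `a` is `α`-Hölder with constant `H` on the closed cube with centre `v₀` and half side `r`. -/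
def HolderOnCube {d : ℕ} (a : (Fin d → ℝ) → Fin d → ℝ) (v₀ : Fin d → ℝ) (r H α : ℝ) : Prop :=
  ∀ v ∈ closedBall v₀ r, ∀ w ∈ closedBall v₀ r, ‖a v - a w‖ ≤ H * ‖v - w‖ ^ α

/-- **Main result.** (1) lower bound for the volume; (2) lower bound for the Hölder constant in terms
of the volume; (3) the slices, for maps which are Hölder on the whole space. -/
theorem result (d : ℕ) (hd : 2 ≤ d) (α : ℝ) (hα : 1 - 1 / (d : ℝ) < α) (hα1 : α ≤ 1) :
    (∃ c : ℝ, 0 < c ∧ ∀ (H : ℝ) (v₀ : Fin d → ℝ) (r : ℝ) (a : (Fin d → ℝ) → Fin d → ℝ),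
      0 ≤ H → 0 < r → HolderOnCube a v₀ r H α →
      ∀ Z : Set (Fin (d + 1) → ℝ),
        (∀ v ∈ closedBall v₀ r, ∀ t ∈ Icc (0 : ℝ) 1, pt (a v) v t ∈ Z) →
        ENNReal.ofReal (c * r ^ d *
          (1 + H * r ^ (α - 1)) ^ (-((d : ℝ) * ((d : ℝ) - 1)) / (α * d - d + 1))) ≤ volume Z) ∧
    (∃ c : ℝ, 0 < c ∧ ∀ (H : ℝ) (v₀ : Fin d → ℝ) (r m : ℝ) (a : (Fin d → ℝ) → Fin d → ℝ),
      0 ≤ H → 0 < r → 0 < m → HolderOnCube a v₀ r H α →
      ∀ Z : Set (Fin (d + 1) → ℝ),
        (∀ v ∈ closedBall v₀ r, ∀ t ∈ Icc (0 : ℝ) 1, pt (a v) v t ∈ Z) →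
        volume Z ≤ ENNReal.ofReal m →
        c * (r ^ d / m) ^ ((α * d - d + 1) / ((d : ℝ) * ((d : ℝ) - 1))) ≤ 1 + H * r ^ (α - 1)) ∧
    ∃ c : ℝ, 0 < c ∧ ∀ (H : ℝ) (a : (Fin d → ℝ) → Fin d → ℝ), 0 ≤ H →
      (∀ v w, ‖a v - a w‖ ≤ H * ‖v - w‖ ^ α) →
      ∀ t : Fin (d + 1) → ℝ, (∀ i, |t i| ≤ 1) →
        (∀ i j, i ≠ j → 1 / ((d : ℝ) + 1) ≤ |t i - t j|) →
        ∃ i, ENNReal.ofReal (c * (1 + H) ^ (-((d : ℝ) * ((d : ℝ) - 1)) / (α * d - d + 1))) ≤
          volume ((fun v => a v + t i • v) '' closedBall 0 1) := by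
  have hd0 : (0 : ℝ) < d := by exact_mod_cast (show 0 < d by omega)
  have hd2 : (2 : ℝ) ≤ d := by exact_mod_cast hd
  have hγ : 0 < α * d - d + 1 := by
    have h1 : (1 - 1 / (d : ℝ)) * d < α * d := by gcongr
    have h2 : (1 - 1 / (d : ℝ)) * d = d - 1 := by field_simp
    linarith
  have hdd : 0 < (d : ℝ) * ((d : ℝ) - 1) := by nlinarith
  obtain ⟨c, hc, hmain⟩ := Pool.Agent.W769.Iso.volume_cube hd hα1 hγ
  refine ⟨⟨c, hc, fun H v₀ r a hH hr ha Z hZ => hmain H v₀ r a hH hr ha Z hZ⟩, ?_, ?_⟩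
  · refine ⟨c ^ ((α * d - d + 1) / ((d : ℝ) * ((d : ℝ) - 1))), by positivity, ?_⟩
    intro H v₀ r m a hH hr hm ha Z hZ hvol
    have h1 := (hmain H v₀ r a hH hr ha Z hZ).trans hvol
    rw [ENNReal.ofReal_le_ofReal_iff hm.le] at h1
    set B : ℝ := 1 + H * r ^ (α - 1) with hB
    have hB1 : 1 ≤ B := by
      have : 0 ≤ H * r ^ (α - 1) := by positivity
      linarith
    have hBp : 0 < B := by linarith
    set s : ℝ := (α * d - d + 1) / ((d : ℝ) * ((d : ℝ) - 1)) with hs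
    have hs0 : 0 < s := by positivity
    have hexp : -((d : ℝ) * ((d : ℝ) - 1)) / (α * d - d + 1) = -(1 / s) := by
      rw [hs]; field_simp
    rw [hexp, Real.rpow_neg hBp.le] at h1
    have h2 : c * (r ^ d / m) ≤ B ^ (1 / s) := by
      have hBs : 0 < B ^ (1 / s) := by positivity
      rw [← div_eq_mul_inv, div_le_iff₀ hBs] at h1
      rw [← mul_div_assoc, div_le_iff₀ hm]
      linarith
    rw [← Real.mul_rpow hc.le (by positivity)]
    calc (c * (r ^ d / m)) ^ s ≤ (B ^ (1 / s)) ^ s := by gcongr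
      _ = B := by rw [← Real.rpow_mul hBp.le, one_div_mul_cancel hs0.ne', Real.rpow_one]
  · obtain ⟨c, hc, hsl⟩ := Pool.Agent.W769.Iso.slices_quant hd hα1 hγ
    refine ⟨(c / 2) ^ d, by positivity, ?_⟩
    intro H a hH ha t ht hsep
    by_contra hcon
    push Not at hcon
    have hH1 : (0 : ℝ) < 1 + H := by linarith
    set R : ℝ := c / 2 * (1 + H) ^ (-((d : ℝ) - 1) / (α * d - d + 1)) with hR
    have hRp : 0 < R := by positivity
    have hRd : R ^ d = (c / 2) ^ d * (1 + H) ^ (-((d : ℝ) * ((d : ℝ) - 1)) / (α * d - d + 1)) := by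
      rw [hR, mul_pow, ← Real.rpow_natCast ((1 + H) ^ (-((d : ℝ) - 1) / (α * d - d + 1))),
        ← Real.rpow_mul hH1.le]
      congr 2
      field_simp
    have h1 := hsl H a hH ha t ht hsep R hRp (fun i => by rw [hRd]; exact hcon i)
    have h2 : 0 < (1 + H) ^ (-((d : ℝ) - 1) / (α * d - d + 1)) := by positivity
    rw [hR] at h1
    nlinarith

end Pool.Agent.Results.MP_b1773a_an.HoelderVolume
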